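import Pool.Agent.V11107.CombLevels

/-!
# A graph matchbox manifold at infinite level with leaves at each finite level
-/

namespace Pool.Agent.Results.MP_fee8af_an.InfiniteLevel

open Pool.Agent.V11107.GraphMatchbox

/-- There is an infinite tree `T` in the Cayley graph of `F_2` such that the graph matchbox
manifold `closure L_T` is at infinite level (at no finite level) and such that, for every `k`,
some leaf which is not dense in `closure L_T` is at level `k`. -/
theorem result : ∃ T : Tree 2, (∀ k, ¬ HasLevel k T) ∧ ∀ k, ∃ T' ∈ nonDense T, HasLevel k T' :=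
  ⟨Tinf, not_hasLevel_Tinf, fun k => ⟨Tk k, Tk_nonDense_Tinf k, hasLevel_Tk k⟩⟩

end Pool.Agent.Results.MP_fee8af_an.InfiniteLevel
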